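import Pool.Agent.T2H29.LQ.Asym
import Pool.Agent.T2H29.LQ.CharTwo

/-!
# MP_c32625_al: quadratic forms over finite extensions of a field of u-invariant one

Let `K` be a field with `u₁(K) = 1` and let `L / K` be a finite extension of degree `d ≥ 4`.  Leep's
bound (C) gives `u₁(L) ≤ (d + 1) / 2`.  We prove `u₁(L) ≤ steps d`, where `steps d` is the number of
steps of an explicit recursion for a codimension, hence

`u₁(L) ≤ (2 - π² / 6 + 1 / (J (J + 1))) (d - 1) + 2 J` for every `J ≥ 1`

(the constant `2 - π² / 6 = 0.355...` replaces the `1 / 2` of (C)), and `u₁(L) ≤ d / 2`, so that (C) is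
never attained for a field with `u₁(K) = 1` when `d ≥ 4`.
-/

set_option autoImplicit false

open Module

namespace Pool.Agent.Results.MP_c32625_al.QuadraticallyClosedBase

/-- the system u-invariant `u_r(K)`: the supremum of the dimensions of the anisotropic systems of `r`
quadratic forms over `K` -/
noncomputable def uInv (K : Type) [Field K] (r : ℕ) : ℕ∞ :=
  ⨆ (n : ℕ) (_ : ∃ q : Fin r → QuadraticForm K (Fin n → K), ∀ v, (∀ i, q i v = 0) → v = 0), (n : ℕ∞)

/-- `c + (c - 1) + ... + (c - s + 1)` (truncated subtraction) -/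
def cost (c s : ℕ) : ℕ := ∑ q ∈ Finset.range s, (c - q)

/-- one more than the largest `s ≤ c` with `c + (c - 1) + ... + (c - s + 1) < d` -/
def gain (d c : ℕ) : ℕ := Nat.findGreatest (fun s => cost c s < d) c + 1

/-- the number of times one can replace `c` by `c - gain d c` without getting below zero -/
def steps (d c : ℕ) : ℕ :=
  if h : c < gain d c then 0 else steps d (c - gain d c) + 1
termination_by c
decreasing_by
  have : 0 < gain d c := Nat.succ_pos _
  omega

open Pool.Agent.T2H29.LQ (Bin Rep)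

theorem cost_eq (c s : ℕ) : cost c s = Pool.Agent.T2H29.LQ.cost c s := rfl

theorem gain_eq (d c : ℕ) : gain d c = Pool.Agent.T2H29.LQ.gain d c := rfl

theorem steps_eq (d c : ℕ) : steps d c = Pool.Agent.T2H29.LQ.steps d c := by
  induction c using Nat.strong_induction_on with
  | _ c ih =>
    have hg : 0 < gain d c := Nat.succ_pos _
    by_cases h : c < gain d c
    · rw [steps, dif_pos h, Pool.Agent.T2H29.LQ.steps_of_lt (by rw [← gain_eq]; exact h)]
    · rw [steps, dif_neg h, Pool.Agent.T2H29.LQ.steps_of_le (by rw [← gain_eq]; exact not_lt.1 h),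
        ih _ (by omega), gain_eq]

theorem le_uInv {K : Type} [Field K] (r n : ℕ) (q : Fin r → QuadraticForm K (Fin n → K))
    (hq : ∀ v, (∀ i, q i v = 0) → v = 0) : (n : ℕ∞) ≤ uInv K r :=
  le_iSup₂_of_le (f := fun (n : ℕ) (_ : ∃ q : Fin r → QuadraticForm K (Fin n → K),
    ∀ v, (∀ i, q i v = 0) → v = 0) => (n : ℕ∞)) n ⟨q, hq⟩ le_rfl

theorem bin_of_uInv {K : Type} [Field K] (h : uInv K 1 = 1) : Bin K := by
  intro A P B
  by_contra hcon
  push Not at hcon
  let q : QuadraticForm K (Fin 2 → K) :=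
    A • QuadraticMap.linMulLin (LinearMap.proj 0) (LinearMap.proj 0) +
    P • QuadraticMap.linMulLin (LinearMap.proj 0) (LinearMap.proj 1) +
    B • QuadraticMap.linMulLin (LinearMap.proj 1) (LinearMap.proj 1)
  have hq : ∀ v : Fin 2 → K, q v = A * v 0 ^ 2 + P * (v 0 * v 1) + B * v 1 ^ 2 := by
    intro v
    simp only [q, QuadraticMap.add_apply, QuadraticMap.smul_apply, QuadraticMap.linMulLin_apply,
      LinearMap.proj_apply, smul_eq_mul]
    ring
  have h1 := le_uInv (K := K) 1 2 (fun _ => q) (by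
    intro v hv
    have h2 := hv 0
    rw [hq] at h2
    by_contra hne
    refine hcon (v 0) (v 1) ?_ h2
    intro h3 h4
    apply hne
    funext i
    fin_cases i
    · exact h3
    · exact h4)
  rw [h] at h1
  have h2 : (2 : ℕ) ≤ 1 := by exact_mod_cast h1
  omega

theorem uInv_le {L : Type} [Field L] (N : ℕ)
    (h : ∀ (n : ℕ) (φ : QuadraticForm L (Fin n → L)), N < n → ∃ y, y ≠ 0 ∧ φ y = 0) :
    uInv L 1 ≤ N := by
  refine iSup₂_le fun n hn => ?_
  obtain ⟨q, hq⟩ := hn
  by_contra hcon
  have h1 : N < n := by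
    by_contra h2
    exact hcon (by exact_mod_cast not_lt.1 h2)
  obtain ⟨y, hy, h0⟩ := h n (q 0) h1
  refine hy (hq y fun i => ?_)
  rw [Subsingleton.elim i 0]
  exact h0

theorem uInv_le_of_rep {K L : Type} [Field K] [Field L] [Algebra K L] [FiniteDimensional K L] (n : ℕ)
    (h : Rep K L (finrank K L) (n + 1)) : uInv L 1 ≤ n := by
  refine uInv_le n fun m φ hm => ?_
  obtain ⟨y, hy, h0⟩ := h (Fin m → L) φ ⊥ (by omega) (by rw [Module.finrank_fin_fun]; omega)
  exact ⟨y, hy, (Submodule.mem_bot K).1 h0⟩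

theorem two_le_steps (d : ℕ) (hd : 4 ≤ d) : 2 ≤ steps d d := by
  have h1 : gain d d = 1 := by
    unfold gain
    have : Nat.findGreatest (fun s => cost d s < d) d = 0 := by
      rw [Nat.findGreatest_eq_zero_iff]
      intro s hs _ hc
      have : cost d 1 ≤ cost d s := Finset.sum_le_sum_of_subset (Finset.range_mono hs)
      have e1 : cost d 1 = d := by simp [cost]
      omega
    rw [this]
  have h2 : gain d (d - 1) ≤ 2 := by
    unfold gain
    by_contra hcon
    have h3 : Nat.findGreatest (fun s => cost (d - 1) s < d) (d - 1) ≠ 0 := by omega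
    have h4 := Nat.findGreatest_of_ne_zero (P := fun s => cost (d - 1) s < d) rfl h3
    have h5 : cost (d - 1) 2 ≤ cost (d - 1) (Nat.findGreatest (fun s => cost (d - 1) s < d) (d - 1)) :=
      Finset.sum_le_sum_of_subset (Finset.range_mono (by omega))
    have e1 : cost (d - 1) 2 = (d - 1) + (d - 1 - 1) := by
      simp [cost, Finset.sum_range_succ]
    omega
  rw [steps, dif_neg (by rw [h1]; omega), h1, steps, dif_neg (by omega)]
  omega

theorem result (K L : Type) [Field K] [Field L] [Algebra K L] [FiniteDimensional K L]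
    (h : uInv K 1 = 1) (hd : 4 ≤ finrank K L) :
    ∃ n : ℕ, uInv L 1 = n ∧ n ≤ steps (finrank K L) (finrank K L) ∧
      (∀ J : ℕ, 1 ≤ J → (n : ℝ) ≤
        (2 - Real.pi ^ 2 / 6 + 1 / (J * (J + 1))) * (finrank K L - 1) + 2 * J) ∧
      2 * n ≤ finrank K L := by
  have hB := bin_of_uInv h
  have hsq : ∀ a : K, ∃ c, c ^ 2 = a := hB.sq
  by_cases h2 : (2 : K) = 0
  · -- characteristic two
    have h2L : (2 : L) = 0 := by
      have := congrArg (algebraMap K L) h2
      rwa [map_ofNat, map_zero] at this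
    have h3 : uInv L 1 ≤ (2 : ℕ) := uInv_le 2 fun m φ hm =>
      Pool.Agent.T2H29.LQ.isotropic_of_perfect h2L
        (fun a => Pool.Agent.T2H29.LQ.sq_of_perfect h2 hsq a) _ φ
        (by rw [Module.finrank_fin_fun]; omega)
    have h4 : uInv L 1 ≠ ⊤ := ne_top_of_le_ne_top (ENat.coe_ne_top 2) h3
    obtain ⟨n, hn⟩ := ENat.ne_top_iff_exists.1 h4
    rw [← hn] at h3
    have h5 : n ≤ 2 := by exact_mod_cast h3
    refine ⟨n, hn.symm, h5.trans (two_le_steps _ hd), ?_, by omega⟩
    intro J hJ
    have e1 : (n : ℝ) ≤ 2 := by exact_mod_cast h5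
    have e2 : (1 : ℝ) ≤ J := by exact_mod_cast hJ
    have e3 : (4 : ℝ) ≤ finrank K L := by exact_mod_cast hd
    have e4 : Real.pi ^ 2 / 6 ≤ 2 := by
      have := Real.pi_lt_d2
      have := Real.pi_pos
      nlinarith
    have e5 : (0 : ℝ) ≤ 1 / (J * (J + 1)) := by positivity
    have e6 : 0 ≤ (2 - Real.pi ^ 2 / 6 + 1 / ((J : ℝ) * (J + 1))) * (finrank K L - 1) :=
      mul_nonneg (by linarith) (by linarith)
    linarith
  · have h3 := uInv_le_of_rep _ (Rep.steps (K := K) (L := L) hsq h2 (finrank K L))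
    have h4 : uInv L 1 ≠ ⊤ := ne_top_of_le_ne_top (ENat.coe_ne_top _) h3
    obtain ⟨n, hn⟩ := ENat.ne_top_iff_exists.1 h4
    refine ⟨n, hn.symm, ?_, ?_, ?_⟩
    · rw [← hn] at h3
      rw [steps_eq]
      exact_mod_cast h3
    · intro J hJ
      obtain ⟨N, hN, hN'⟩ := Rep.asym (K := K) (L := L) hsq h2 J hJ
      have h5 := uInv_le_of_rep _ hN
      rw [← hn] at h5
      have h6 : (n : ℝ) ≤ N := by exact_mod_cast h5
      exact h6.trans hN'
    · have h5 : Rep K L 2 1 := Rep.last hsq h2 (by
        have : Pool.Agent.T2H29.LQ.cost 2 2 = 3 := rfl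
        omega)
      have h6 : Rep K L (finrank K L - 1) (1 + (finrank K L - 2) / 2) :=
        Rep.phase hsq h2 h5 _ _ (j := 1) (by omega) (by omega)
      have h7 : Rep K L (finrank K L) (1 + (finrank K L - 2) / 2 + 1) :=
        Rep.step hsq h2 (s := 0) (by rw [Pool.Agent.T2H29.LQ.cost_zero]; omega)
          (by rw [zero_add]; exact h6)
      have h8 := uInv_le_of_rep _ h7
      rw [← hn] at h8
      have h9 : n ≤ 1 + (finrank K L - 2) / 2 := by exact_mod_cast h8
      omega

end Pool.Agent.Results.MP_c32625_al.QuadraticallyClosedBase
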